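import Pool.Agent.H360.VC.Val

/-!
# Classical and non-classical knots whose Jones polynomials tend to one
-/

set_option autoImplicit false

namespace Pool.Agent.H360.VC

open Finset LaurentPolynomial Pool.Agent.H891R2.Jones Pool.Agent.W639.RB Pool.Agent.Y463.SK
  Pool.Agent.Y463.MP Pool.Agent.Helper52_CV Pool.Agent.H360.JK Pool.Agent.H360.KN
  Pool.Agent.Helper52_KD

theorem fact_dvd (j M n : ℕ) (hM : 0 < M) (hj : M ≤ j) (hn : n ≤ j) :
    (30 * (1 - T (-4) ^ M) : ℤ[T;T⁻¹]) ^ n ∣ (30 * (1 - T (-4) ^ j.factorial)) ^ j := by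
  obtain ⟨c, hc⟩ := Nat.dvd_factorial hM hj
  have h1 : (1 - T (-4) ^ M : ℤ[T;T⁻¹]) ∣ 1 - T (-4) ^ j.factorial := by
    rw [hc, pow_mul]
    exact one_sub_dvd_one_sub_pow _ _
  exact (pow_dvd_pow_of_dvd (mul_dvd_mul_left _ h1) n).trans (pow_dvd_pow _ hn)

/-- the modulus for `N`, `k` -/
theorem mN_dvd (N k : ℕ) {j : ℕ} (h : k ≤ j) :
    (30 * (1 - T (-4) ^ N) : ℤ[T;T⁻¹]) ^ k ∣ mN N ^ j := by
  refine (pow_dvd_pow_of_dvd ?_ k).trans (pow_dvd_pow _ h)
  have h := (dvd_one_sub N N ⟨6, by ring⟩).trans (dvd_yx N)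
  obtain ⟨q, hq⟩ := h
  refine ⟨q, ?_⟩
  unfold mN
  linear_combination 30 * hq

theorem A_move (N k i : ℕ) (h : k ≤ 2 * i + 2) (O : Outer 4) (a b : List (Letter 4)) :
    (30 * (1 - T (-4) ^ N) : ℤ[T;T⁻¹]) ^ k ∣
      (dia O (a ++ AN N i ++ b)).fPoly - (dia O (a ++ b)).fPoly := by
  obtain ⟨G, hG⟩ := fPoly_move (by norm_num) (st_A N i) O a b
  rw [hG, add_sub_cancel_left]
  exact Dvd.dvd.mul_right (mN_dvd N k h) _

/-- a choice of indices for which infinitely many injective sequences take values outside of given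
finite sets -/
theorem exists_choice {α β : Type*} (f : ℕ → ℕ → α) (g : ℕ → ℕ → β)
    (hf : ∀ j, Function.Injective (f j)) (hg : ∀ j, Function.Injective (g j)) (a0 : α) (b0 : β)
    (s : ℕ → ℕ) :
    ∃ i : ℕ → ℕ, (∀ j, s j ≤ i j) ∧ (∀ j, f j (i j) ≠ a0) ∧ (∀ j, g j (i j) ≠ b0) ∧
      Function.Injective (fun j => f j (i j)) ∧ Function.Injective (fun j => g j (i j)) := by
  classical
  have step : ∀ (j : ℕ) (A : Finset α) (B : Finset β), ∃ i, s j ≤ i ∧ f j i ∉ A ∧ g j i ∉ B := by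
    intro j A B
    have hA : {i | f j i ∈ A}.Finite := A.finite_toSet.preimage ((hf j).injOn)
    have hB : {i | g j i ∈ B}.Finite := B.finite_toSet.preimage ((hg j).injOn)
    have h := ((hA.union hB).union (Set.finite_lt_nat (s j))).infinite_compl.nonempty
    obtain ⟨i, hi⟩ := h
    simp only [Set.mem_compl_iff, Set.mem_union, Set.mem_ofPred_eq, not_or, not_lt] at hi
    exact ⟨i, hi.2, hi.1.1, hi.1.2⟩
  choose c hc1 hc2 hc3 using step
  let F : ℕ → Finset α × Finset β := fun n => Nat.rec ({a0}, {b0})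
    (fun j p => (insert (f j (c j p.1 p.2)) p.1, insert (g j (c j p.1 p.2)) p.2)) n
  have hF : ∀ j, F (j + 1) = (insert (f j (c j (F j).1 (F j).2)) (F j).1,
      insert (g j (c j (F j).1 (F j).2)) (F j).2) := fun j => rfl
  have hm1 : Monotone fun j => (F j).1 := monotone_nat_of_le_succ fun j => by
    show (F j).1 ≤ (F (j + 1)).1
    rw [hF]; exact Finset.subset_insert _ _
  have hm2 : Monotone fun j => (F j).2 := monotone_nat_of_le_succ fun j => by
    show (F j).2 ≤ (F (j + 1)).2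
    rw [hF]; exact Finset.subset_insert _ _
  refine ⟨fun j => c j (F j).1 (F j).2, fun j => hc1 _ _ _, fun j h => ?_, fun j h => ?_, ?_, ?_⟩
  · have h1 := hc2 j (F j).1 (F j).2
    apply h1
    rw [h]
    exact hm1 (Nat.zero_le j) (Finset.mem_singleton_self a0)
  · have h1 := hc3 j (F j).1 (F j).2
    apply h1
    rw [h]
    exact hm2 (Nat.zero_le j) (Finset.mem_singleton_self b0)
  · refine Function.Injective.of_lt_imp_ne fun j l hjl h => ?_
    apply hc2 l (F l).1 (F l).2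
    have h2 : f j (c j (F j).1 (F j).2) ∈ (F (j + 1)).1 := by
      rw [hF]; exact Finset.mem_insert_self _ _
    have h3 := hm1 (Nat.succ_le_of_lt hjl) h2
    have h4 : f j (c j (F j).1 (F j).2) = f l (c l (F l).1 (F l).2) := h
    rw [← h4]
    exact h3
  · refine Function.Injective.of_lt_imp_ne fun j l hjl h => ?_
    apply hc3 l (F l).1 (F l).2
    have h2 : g j (c j (F j).1 (F j).2) ∈ (F (j + 1)).2 := by
      rw [hF]; exact Finset.mem_insert_self _ _
    have h3 := hm2 (Nat.succ_le_of_lt hjl) h2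
    have h4 : g j (c j (F j).1 (F j).2) = g l (c l (F l).1 (F l).2) := h
    rw [← h4]
    exact h3

theorem f0_inj (N : ℕ) (hN : 1 ≤ N) : Function.Injective
    (fun i : ℕ => (dia (braidClosure 4) (b0 ++ AN N i)).fPoly) := A_inj N hN 0

theorem main : ∃ u : ℕ → List (Letter 4),
    (∀ j, IsPure (u j)) ∧
    (∀ M n j : ℕ, 0 < M → M ≤ j → n ≤ j → ∀ (O : Outer 4) (v w : List (Letter 4)),
      (30 * (1 - T (-4) ^ M) : ℤ[T;T⁻¹]) ^ n ∣
        (dia O (v ++ u j ++ w)).fPoly - (dia O (v ++ w)).fPoly) ∧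
    ((dia (braidClosure 4) b0).fPoly = 1 ∧
      (∀ j, (dia (braidClosure 4) (b0 ++ u j)).IsClosed ∧
        (∀ x y, (permW (b0 ++ u j)).SameCycle x y) ∧
        (dia (braidClosure 4) (b0 ++ u j)).fPoly ≠ 1) ∧
      Function.Injective (fun j => (dia (braidClosure 4) (b0 ++ u j)).fPoly)) ∧
    ((dia twist b1).fPoly = 1 ∧
      (∀ j, (dia twist (b1 ++ u j)).IsClosed ∧
        (∀ x y, (permW (b1 ++ u j) * Equiv.swap 0 1).SameCycle x y) ∧
        ∃ n : ℤ, (4 : ℤ) ∣ n - 2 ∧ (dia twist (b1 ++ u j)).fPoly.coeff n ≠ 0) ∧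
      Function.Injective (fun j => part2 (dia twist (b1 ++ u j)).fPoly)) := by
  obtain ⟨i, hs, h1, h2, h3, h4⟩ := exists_choice
    (fun (j i : ℕ) => (dia (braidClosure 4) (b0 ++ AN j.factorial i)).fPoly)
    (fun (j i : ℕ) => od (AN j.factorial i)) (fun j => f0_inj _ (Nat.factorial_pos j))
    (fun j => od_inj _ (Nat.factorial_pos j)) 1 0 id
  have hN : ∀ j : ℕ, 1 ≤ j.factorial := Nat.factorial_pos
  have hp : ∀ j, part2 (dia twist (b1 ++ AN j.factorial (i j))).fPoly = od (AN j.factorial (i j)) := by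
    intro j
    rw [fPoly_twist _ (st_A _ _).cost, fPoly_A, part2_eq (ev_G _ _) (od_G _ _)]
  have hfac : Function.Injective fun j : ℕ => j := fun _ _ h => h
  refine ⟨fun j => AN j.factorial (i j), fun j => permW_one _ (st_A _ _).perm, ?_,
    ⟨fPoly_b0, fun j => ⟨closed_all _, knot_b0 _ (st_A _ _).perm, h1 j⟩, h3⟩,
    ⟨?_, fun j => ⟨?_, cycle_b1 _ (st_A _ _).perm, ?_⟩, ?_⟩⟩
  · intro M n j hM hMj hn O v w
    have hij : j ≤ i j := hs j
    exact (fact_dvd j M n hM hMj hn).trans (A_move _ j (i j) (by omega) O v w)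
  · have h := fPoly_twist [] (fun U => by simp [costS, toN])
    rw [List.append_nil] at h
    rw [h, fPoly_b1]
  · exact draw_closed (toN _) twist (toN_lt _) (fun _ => rfl) twist_closed
  · by_contra hcon
    push Not at hcon
    refine h2 j ?_
    rw [← hp]
    apply LaurentPolynomial.ext
    intro n
    rw [part2_coeff]
    split_ifs with h
    · exact hcon n h
    · rfl
  · intro j l hjl
    simp only [hp] at hjl
    exact h4 hjl

end Pool.Agent.H360.VC
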