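import Pool.Agent.H360.KN.Main

/-!
# The closure with one virtual crossing: the values of the functional
-/

set_option autoImplicit false
set_option linter.unusedSimpArgs false

namespace Pool.Agent.H360.VC

open Finset LaurentPolynomial Pool.Agent.H891R2.Jones Pool.Agent.W639.RB Pool.Agent.Y463.SK
  Pool.Agent.Y463.MP Pool.Agent.Helper52_CV Pool.Agent.H360.JK Pool.Agent.H360.KN
  Pool.Agent.Helper52_KD

/-- The outside of a box through which four strands run upwards, for the closure of braids with one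
virtual crossing: the upper ends of the strands `0`, `1`, `2`, `3` are joined to the lower ends of the
strands `1`, `0`, `2`, `3`. -/
def twist : Outer 4 where
  P := Fin 4
  arcs := []
  crossings := []
  lower := ![0, 1, 2, 3]
  upper := ![1, 0, 2, 3]
  up := fun _ => true

/-- the functional -/
noncomputable abbrev SV : TLZ 4 →ₗ[ℤ[T;T⁻¹]] ℤ[T;T⁻¹] := PhiS (by norm_num) twist

theorem SV_spec (b : TLZ 4) (N : {N : ℕ // 3 ≤ N}) : (N.1 : ℂ) * ev N.1 N.2 (SV b) =
    ∑ x, ∑ y, ∑ z, ∑ w, en N b ![x, y, z, w] ![y, x, z, w] := by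
  rw [PhiS_spec]
  unfold Zg
  have h : ∀ col : Fin 4 → Fin N.1, (1 * 1 : ℂ) * (b.1 N) (fun x y => ind (x = y))
      (fun j => col (twist.lower j)) (fun j => col (twist.upper j)) =
      en N b (fun j => col (twist.lower j)) (fun j => col (twist.upper j)) := fun col => by
    rw [one_mul, one_mul]; rfl
  calc _ = ∑ col : Fin 4 → Fin N.1, en N b (fun j => col (twist.lower j))
        (fun j => col (twist.upper j)) := sum_congr rfl fun col _ => h col
    _ = _ := by
      rw [sum4]
      refine sum_congr rfl fun a _ => sum_congr rfl fun b _ => sum_congr rfl fun c _ =>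
        sum_congr rfl fun d _ => ?_
      congr 1
      · funext j; fin_cases j <;> rfl
      · funext j; fin_cases j <;> rfl

theorem SV_one : SV (1) = dl ^ 2 := by
  apply ev_unique
  intro N
  rw [SV_spec, map_pow, ev_dl]
  simp only [en_one, en_0, en_1, en_2]
  simp [ite_and, pow_two]

theorem SV_E0 : SV (EZ 4 0) = dl ^ 2 := by
  apply ev_unique
  intro N
  rw [SV_spec, map_pow, ev_dl, ← mul_one (EZ 4 0)]
  simp only [en_one, en_0, en_1, en_2]
  simp [ite_and, pow_two]

theorem SV_E1 : SV (EZ 4 1) = dl := by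
  apply ev_unique
  intro N
  rw [SV_spec, ev_dl, ← mul_one (EZ 4 1)]
  simp only [en_one, en_0, en_1, en_2]
  simp [ite_and]

theorem SV_E2 : SV (EZ 4 2) = dl := by
  apply ev_unique
  intro N
  rw [SV_spec, ev_dl, ← mul_one (EZ 4 2)]
  simp only [en_one, en_0, en_1, en_2]
  simp [ite_and]

theorem SV_E01 : SV (EZ 4 0 * EZ 4 1) = dl := by
  apply ev_unique
  intro N
  rw [SV_spec, ev_dl, ← mul_one (EZ 4 1)]
  simp only [en_one, en_0, en_1, en_2]
  simp [ite_and]

theorem SV_E10 : SV (EZ 4 1 * EZ 4 0) = dl := by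
  apply ev_unique
  intro N
  rw [SV_spec, ev_dl, ← mul_one (EZ 4 0)]
  simp only [en_one, en_0, en_1, en_2]
  simp [ite_and]

theorem SV_E12 : SV (EZ 4 1 * EZ 4 2) = 1 := by
  apply ev_unique
  intro N
  rw [SV_spec, map_one, ← mul_one (EZ 4 2)]
  simp only [en_one, en_0, en_1, en_2]
  simp [ite_and]

theorem SV_E21 : SV (EZ 4 2 * EZ 4 1) = 1 := by
  apply ev_unique
  intro N
  rw [SV_spec, map_one, ← mul_one (EZ 4 1)]
  simp only [en_one, en_0, en_1, en_2]
  simp [ite_and]

theorem SV_E02 : SV (EZ 4 0 * EZ 4 2) = dl := by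
  apply ev_unique
  intro N
  rw [SV_spec, ev_dl, ← mul_one (EZ 4 2)]
  simp only [en_one, en_0, en_1, en_2]
  simp [ite_and]

theorem SV_E012 : SV (EZ 4 0 * (EZ 4 1 * EZ 4 2)) = 1 := by
  apply ev_unique
  intro N
  rw [SV_spec, map_one, ← mul_one (EZ 4 2)]
  simp only [en_one, en_0, en_1, en_2]
  simp [ite_and]

theorem SV_E210 : SV (EZ 4 2 * (EZ 4 1 * EZ 4 0)) = 1 := by
  apply ev_unique
  intro N
  rw [SV_spec, map_one, ← mul_one (EZ 4 0)]
  simp only [en_one, en_0, en_1, en_2]
  simp [ite_and]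

theorem SV_E102 : SV (EZ 4 1 * (EZ 4 0 * EZ 4 2)) = 1 := by
  apply ev_unique
  intro N
  rw [SV_spec, map_one, ← mul_one (EZ 4 2)]
  simp only [en_one, en_0, en_1, en_2]
  simp [ite_and]

theorem SV_E021 : SV (EZ 4 0 * (EZ 4 2 * EZ 4 1)) = 1 := by
  apply ev_unique
  intro N
  rw [SV_spec, map_one, ← mul_one (EZ 4 1)]
  simp only [en_one, en_0, en_1, en_2]
  simp [ite_and]

theorem SV_E1021 : SV (EZ 4 1 * (EZ 4 0 * (EZ 4 2 * EZ 4 1))) = 1 := by
  have h : EZ 4 1 * (EZ 4 0 * (EZ 4 2 * EZ 4 1)) = EZ 4 1 * (EZ 4 0 * (EZ 4 2 * (EZ 4 1 * 1))) := by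
    rw [mul_one]
  rw [h]
  apply ev_unique
  intro N
  rw [SV_spec, map_one]
  simp only [en_one, en_0, en_1, en_2]
  simp [ite_and]

theorem SV_lin (y : Co ℤ[T;T⁻¹]) :
    SV (y.lin (EZ 4 0) (EZ 4 1) (EZ 4 2)) = S1 y + S2 y := by
  unfold Co.lin S1 S2
  have h1 : EZ 4 1 * EZ 4 0 * EZ 4 2 * EZ 4 1 = EZ 4 1 * (EZ 4 0 * (EZ 4 2 * EZ 4 1)) := by
    simp only [mul_assoc]
  rw [h1, mul_assoc (EZ 4 0), mul_assoc (EZ 4 2), mul_assoc (EZ 4 1), mul_assoc (EZ 4 0)]
  simp only [LinearMap.map_add, LinearMap.map_smul, SV_one, SV_E0, SV_E1, SV_E2, SV_E01, SV_E10,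
    SV_E12, SV_E21, SV_E02, SV_E012, SV_E210, SV_E102, SV_E021, SV_E1021, smul_eq_mul]
  ring

theorem SV_eq (w : List (Letter 4)) : SV (zz w) = SN (zz w) := by
  rw [zz_co, SV_lin, SN_lin]

theorem writhe_t1 : (dia twist b1).writhe = 2 := by
  have h := (draw_up (toN b1) twist (toN_lt b1) (fun _ => rfl)).2
  have h2 : (dia twist b1).writhe = owr (draw twist (toN b1)) := rfl
  have h3 : owr twist = 0 := rfl
  rw [h2, h, h3]
  rfl

/-- the normalised brackets of the closure with one virtual crossing and of the knotoid agree -/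
theorem fPoly_twist (u : List (Letter 4)) (hc : ∀ U, costS (toN u) U = 0) :
    (dia twist (b1 ++ u)).fPoly = (dia snail (b1 ++ u)).fPoly := by
  have hw : (dia snail (b1 ++ u)).writhe = 2 := by
    have := writhe_dia snail b1
    rw [writhe_b1] at this
    rw [writhe_dia, toN_append, costS_append, hc, add_zero]
    exact this.symm
  have hw' : (dia twist (b1 ++ u)).writhe = 2 := by
    have := writhe_dia twist b1
    rw [writhe_t1] at this
    rw [writhe_dia, toN_append, costS_append, hc, add_zero]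
    exact this.symm
  have hb : (dia snail (b1 ++ u)).bracket = SN (zz (b1 ++ u)) := bracket_dia (by norm_num) _ _
  have hb' : (dia twist (b1 ++ u)).bracket = SV (zz (b1 ++ u)) := bracket_dia (by norm_num) _ _
  unfold Diagram.fPoly
  rw [hw, hw', hb, hb', SV_eq]

theorem twist_closed : twist.close.IsClosed := by
  classical
  rw [closed_iff]
  have h : ∀ x : Fin 4, (univ.filter (fun j : Fin 4 => (![0, 1, 2, 3] : Fin 4 → Fin 4) j = x)).card = 1 := by
    decide
  have h' : ∀ x : Fin 4, (univ.filter (fun j : Fin 4 => (![1, 0, 2, 3] : Fin 4 → Fin 4) j = x)).card = 1 := by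
    decide
  refine ⟨fun x => ?_, fun x => ?_⟩
  · simp only [Sst, twist, List.map_nil, List.sum_nil]
    simp <;> convert h x
  · simp only [Sst, twist, Outer.rev, List.map_nil, List.sum_nil]
    simp <;> convert h' x

end Pool.Agent.H360.VC
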